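import Mathlib

set_option autoImplicit false

/-! # Disjoint sets of representatives -/

namespace Pool.Agent.K6.H27.RC

open Finset

/-- Every `s ∈ D` gets `w s` elements of `Q` outside of the forbidden set `F s`, disjointly. -/
theorem assign {α : Type*} [DecidableEq α] (D : Finset α) (w : α → ℕ) (Q : Finset ℕ) (F : α → Finset ℕ) (N : ℕ)
    (hF : ∀ s ∈ D, (F s).card ≤ N) (hQ : ∑ s ∈ D, w s + N ≤ Q.card) :
    ∃ B : α → Finset ℕ, (∀ s ∈ D, B s ⊆ Q ∧ Disjoint (B s) (F s) ∧ (B s).card = w s) ∧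
      ∀ s ∈ D, ∀ s' ∈ D, s ≠ s' → Disjoint (B s) (B s') := by
  classical
  induction D using Finset.induction_on with
  | empty =>
    refine ⟨fun _ => ∅, ?_, ?_⟩
    · intro s hs; exact absurd hs (Finset.notMem_empty s)
    · intro s hs; exact absurd hs (Finset.notMem_empty s)
  | insert a D ha ih =>
    rw [Finset.sum_insert ha] at hQ
    obtain ⟨B, hB1, hB2⟩ := ih (fun s hs => hF s (mem_insert_of_mem hs)) (by omega)
    set V := D.biUnion B with hV
    have hVc : V.card ≤ ∑ s ∈ D, w s := by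
      refine card_biUnion_le.trans (le_of_eq (Finset.sum_congr rfl fun s hs => (hB1 s hs).2.2))
    have hFa := hF a (mem_insert_self _ _)
    have hc : w a ≤ ((Q \ F a) \ V).card := by
      have h1 : Q.card - (F a).card ≤ (Q \ F a).card := le_card_sdiff _ _
      have h2 : (Q \ F a).card - V.card ≤ ((Q \ F a) \ V).card := le_card_sdiff _ _
      omega
    obtain ⟨T, hT, hTc⟩ := Finset.exists_subset_card_eq hc
    have hTV : Disjoint T V := by
      rw [Finset.disjoint_left]
      intro x hx hxV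
      exact (mem_sdiff.1 (hT hx)).2 hxV
    refine ⟨fun s => if s = a then T else B s, ?_, ?_⟩
    · intro s hs
      by_cases hsa : s = a
      · simp only [if_pos hsa]
        subst hsa
        refine ⟨fun x hx => (mem_sdiff.1 (mem_sdiff.1 (hT hx)).1).1, ?_, hTc⟩
        rw [Finset.disjoint_left]
        intro x hx hxF
        exact (mem_sdiff.1 (mem_sdiff.1 (hT hx)).1).2 hxF
      · simp only [if_neg hsa]
        exact hB1 s ((mem_insert.1 hs).resolve_left hsa)
    · intro s hs s' hs' hne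
      by_cases hsa : s = a
      · have hs'a : s' ≠ a := fun h => hne (hsa.trans h.symm)
        simp only [if_pos hsa, if_neg hs'a]
        have hs'D := (mem_insert.1 hs').resolve_left hs'a
        exact hTV.mono_right (Finset.subset_biUnion_of_mem B hs'D)
      · by_cases hs'a : s' = a
        · simp only [if_neg hsa, if_pos hs'a]
          have hsD := (mem_insert.1 hs).resolve_left hsa
          exact (hTV.mono_right (Finset.subset_biUnion_of_mem B hsD)).symm
        · simp only [if_neg hsa, if_neg hs'a]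
          exact hB2 s ((mem_insert.1 hs).resolve_left hsa) s' ((mem_insert.1 hs').resolve_left hs'a) hne

/-- a nonzero integer `m`, `|m| ≤ 2 L²`, has at most two prime divisors `> δ L` if `δ³ L > 2` -/
theorem few_divisors (Q : Finset ℕ) (δ L : ℝ) (hδ : 0 < δ) (hL : 0 < L) (hδL : 2 < δ ^ 3 * L) (h1 : 1 ≤ δ * L)
    (hQ : ∀ q ∈ Q, q.Prime ∧ δ * L < q) (m : ℤ) (hm0 : m ≠ 0) (hm : |(m : ℝ)| ≤ 2 * L ^ 2) :
    (Q.filter (fun q : ℕ => (q : ℤ) ∣ m)).card ≤ 2 := by
  classical
  by_contra hc
  push Not at hc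
  set A := Q.filter (fun q : ℕ => (q : ℤ) ∣ m) with hA
  have hprod : (∏ q ∈ A, q) ∣ m.natAbs := by
    apply Finset.prod_primes_dvd
    · intro q hq
      exact ((hQ q (mem_filter.1 hq).1).1).prime
    · intro q hq
      exact Int.natCast_dvd.1 (mem_filter.1 hq).2
  have hle : ∏ q ∈ A, q ≤ m.natAbs := Nat.le_of_dvd (Int.natAbs_pos.2 hm0) hprod
  have hle' : (∏ q ∈ A, (q : ℝ)) ≤ 2 * L ^ 2 := by
    refine le_trans ?_ hm
    have h2 : ((∏ q ∈ A, q : ℕ) : ℝ) ≤ (m.natAbs : ℝ) := by exact_mod_cast hle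
    rw [Nat.cast_natAbs, Int.cast_abs] at h2
    push_cast at h2
    exact h2
  have hlow : (δ * L) ^ A.card ≤ ∏ q ∈ A, (q : ℝ) := by
    rw [← Finset.prod_const]
    apply Finset.prod_le_prod
    · intro q _; positivity
    · intro q hq
      exact (hQ q (mem_filter.1 hq).1).2.le
  have h3 : (δ * L) ^ 3 ≤ (δ * L) ^ A.card := pow_le_pow_right₀ h1 hc
  have h4 : 2 * L ^ 2 < (δ * L) ^ 3 := by
    have : (δ * L) ^ 3 = (δ ^ 3 * L) * L ^ 2 := by ring
    rw [this]
    exact mul_lt_mul_of_pos_right hδL (by positivity)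
  linarith

end Pool.Agent.K6.H27.RC
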