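import Mathlib

set_option autoImplicit false

/-! # Many primes in `(L/1000, L/10]` (the proof of `Pool.Agent.K6.H27.PR.many_primes`, without its imports) -/

namespace Pool.Agent.K6.H27.RC

open Finset Filter

/-- the primes `≤ z` -/
def Pz (z : ℕ) : Finset ℕ := (Ioc 0 z).filter Nat.Prime

theorem mem_Pz {z p : ℕ} : p ∈ Pz z ↔ p.Prime ∧ p ≤ z := by
  unfold Pz
  rw [mem_filter, mem_Ioc]
  constructor
  · rintro ⟨⟨_, h⟩, hp⟩; exact ⟨hp, h⟩
  · rintro ⟨hp, h⟩; exact ⟨⟨hp.pos, h⟩, hp⟩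

theorem card_Pz (n : ℕ) : (Pz n).card = Nat.primeCounting n := by
  rw [Nat.primeCounting, Nat.primeCounting', Nat.count_eq_card_filter_range]
  congr 1
  ext p
  rw [mem_Pz, mem_filter, mem_range]
  constructor
  · rintro ⟨h1, h2⟩; exact ⟨by omega, h1⟩
  · rintro ⟨h1, h2⟩; exact ⟨h2, by omega⟩

/-- the number of the primes in `(L/1000, L/10]` -/
theorem many_primes : ∃ L₀ : ℝ, ∀ L : ℝ, L₀ ≤ L →
    1 / 100 * L / Real.log L ≤ ((Pz ⌊L / 10⌋₊ \ Pz ⌊L / 1000⌋₊).card : ℝ) := by
  have hl4 : Real.log 4 ≤ 3 / 2 := by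
    have : Real.log 4 = 2 * Real.log 2 := by
      rw [show (4 : ℝ) = 2 ^ (2 : ℕ) by norm_num, Real.log_pow]; norm_num
    have := Real.log_two_lt_d9
    linarith
  have h1 := Chebyshev.eventually_primeCounting_le (show (0 : ℝ) < 1 / 2 by norm_num)
  have t1 : Tendsto (fun L : ℝ => L / 1000) atTop atTop := tendsto_id.atTop_div_const (by norm_num)
  have h2 := t1.eventually h1
  have h3 : ∀ᶠ L : ℝ in atTop, Real.log L ≤ L / 1000 := by
    have e1 := Real.isLittleO_log_id_atTop.def (show (0 : ℝ) < 1 / 1000 by norm_num)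
    filter_upwards [e1, eventually_ge_atTop (1 : ℝ)] with s h h'
    rw [Real.norm_eq_abs, Real.norm_eq_abs, id, abs_of_nonneg (Real.log_nonneg h'),
      abs_of_nonneg (by linarith)] at h
    linarith
  obtain ⟨L₀, hL₀⟩ := eventually_atTop.1 ((h2.and h3).and (eventually_ge_atTop (1000000 : ℝ)))
  refine ⟨L₀, fun L hL => ?_⟩
  obtain ⟨⟨a1, a2⟩, a3⟩ := hL₀ L hL
  have hL0 : 0 < L := by linarith
  have hlog : 0 < Real.log L := Real.log_pos (by linarith)
  have h1000 : Real.log 1000 ≤ Real.log L / 2 := by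
    have : Real.log ((1000 : ℝ) ^ 2) ≤ Real.log L := Real.log_le_log (by norm_num) (by linarith)
    rw [Real.log_pow] at this
    push_cast at this
    linarith
  have hlk : Real.log L / 2 ≤ Real.log (L / 1000) := by
    rw [Real.log_div hL0.ne' (by norm_num)]
    linarith
  -- upper bound
  have hup : ((Pz ⌊L / 1000⌋₊).card : ℝ) ≤ 4 / 1000 * L / Real.log L := by
    rw [card_Pz]
    refine a1.trans ?_
    have e1 : (Real.log 4 + 1 / 2) * (L / 1000) ≤ 2 / 1000 * L := by nlinarith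
    calc (Real.log 4 + 1 / 2) * (L / 1000) / Real.log (L / 1000) ≤
        (2 / 1000 * L) / (Real.log L / 2) := by
          apply div_le_div₀ (by positivity) e1 (by positivity) hlk
      _ = _ := by field_simp; norm_num
  -- lower bound
  have hlow : 3 / 100 * L / Real.log L ≤ ((Pz ⌊L / 10⌋₊).card : ℝ) := by
    rw [card_Pz]
    have e1 := Chebyshev.pi_ge' (show (1 : ℝ) < L / 10 by linarith)
    refine le_trans ?_ e1
    have e2 : Real.log (L / 10) ≤ Real.log L := Real.log_le_log (by linarith) (by linarith)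
    have e3 : 0 < Real.log (L / 10) := Real.log_pos (by linarith)
    have e4 : Real.log (L / 10 + 2) ≤ Real.log L := Real.log_le_log (by linarith) (by linarith)
    have e5 := Real.log_two_gt_d9
    have e6 : 3 / 100 * L ≤ (L / 10 - 1) * Real.log 2 - Real.log (L / 10 + 2) := by nlinarith
    exact div_le_div₀ (by linarith [show 0 ≤ 3 / 100 * L by positivity]) e6 e3 e2
  have hsub : ((Pz ⌊L / 10⌋₊).card : ℝ) ≤ ((Pz ⌊L / 10⌋₊ \ Pz ⌊L / 1000⌋₊).card : ℝ) +
      ((Pz ⌊L / 1000⌋₊).card : ℝ) := by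
    have h := card_le_card_sdiff_add_card (s := Pz ⌊L / 10⌋₊) (t := Pz ⌊L / 1000⌋₊)
    exact_mod_cast h
  have hfin : 1 / 100 * L / Real.log L = 3 / 100 * L / Real.log L - 2 / 100 * L / Real.log L := by
    ring
  have hfin2 : 4 / 1000 * L / Real.log L ≤ 2 / 100 * L / Real.log L := by
    apply div_le_div_of_nonneg_right _ hlog.le
    linarith
  linarith


end Pool.Agent.K6.H27.RC
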