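import Pool.Agent.H378R2.M7j
import Pool.Agent.K6.H27.RC.Many
import Pool.Agent.K6.H27.RC.Comb

set_option autoImplicit false
set_option maxHeartbeats 4000000

/-! # The free primes -/

namespace Pool.Agent.K6.H27.RC

open Finset Filter
open Pool.Agent.H378R2

theorem yy_pow (X : ℝ) (hX : 0 < X) : yy (X ^ (1 / 100 : ℝ)) = ⌊Real.log X / 100 / 1000⌋₊ := by
  unfold yy
  rw [Real.log_rpow hX]
  congr 1
  ring

theorem yy_pow_le (X : ℝ) (hX : 1 ≤ X) : yy (X ^ (1 / 100 : ℝ)) ≤ yy X := by
  rw [yy_pow X (by linarith)]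
  unfold yy
  apply Nat.floor_le_floor
  have : 0 ≤ Real.log X := Real.log_nonneg hX
  linarith

/-- there are many free primes -/
theorem free_primes (K : ℕ) : ∀ᶠ X : ℝ in atTop, ∀ (ps : ℕ) (S : Finset ℕ), GoodS X S →
    1 / 40000 * (Real.log X / Real.log (Real.log X)) + 2 * K ≤
      (((PW X S ps).filter (fun q => yy (X ^ (1 / 100 : ℝ)) < q)).card : ℝ) := by
  classical
  obtain ⟨L₀, hL₀⟩ := many_primes
  have hl := Real.tendsto_log_atTop
  have hll : Tendsto (fun X : ℝ => Real.log (Real.log X)) atTop atTop := hl.comp hl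
  have hlin : ∀ᶠ L : ℝ in atTop, (2 * (K : ℝ) + 1) * 20000 * Real.log L ≤ L := by
    have hc : (0 : ℝ) < 1 / ((2 * (K : ℝ) + 1) * 20000) := by positivity
    have h := Real.isLittleO_log_id_atTop.def hc
    filter_upwards [h, eventually_ge_atTop (1 : ℝ)] with L h h'
    rw [Real.norm_eq_abs, Real.norm_eq_abs, id, abs_of_nonneg (Real.log_nonneg h'),
      abs_of_nonneg (by linarith)] at h
    have h2 : (0 : ℝ) < (2 * (K : ℝ) + 1) * 20000 := by positivity
    calc (2 * (K : ℝ) + 1) * 20000 * Real.log L ≤ (2 * (K : ℝ) + 1) * 20000 *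
          (1 / ((2 * (K : ℝ) + 1) * 20000) * L) := mul_le_mul_of_nonneg_left h h2.le
      _ = L := by field_simp
  filter_upwards [hl.eventually_ge_atTop (100 * L₀), hl.eventually_ge_atTop 1000000, hll.eventually_ge_atTop 240,
    hl.eventually hlin, eventually_ge_atTop 1] with X h1 h2 h3 h4 hX1 ps S hS
  set L := Real.log X with hL
  set u := Real.log L with hu
  have hL0 : 0 < L := by linarith
  have hu0 : 0 < u := by linarith
  have hm := hL₀ (L / 100) (by linarith)
  set P0 : Finset ℕ := Pz ⌊L / 100 / 10⌋₊ \ Pz ⌊L / 100 / 1000⌋₊ with hP0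
  set S' := S.filter (fun q => yy (X ^ (1 / 100 : ℝ)) < q) with hS'
  have hyy' := yy_pow X (by linarith)
  rw [← hL] at hyy'
  have hsub : (P0 \ S') \ {ps} ⊆ (PW X S ps).filter (fun q => yy (X ^ (1 / 100 : ℝ)) < q) := by
    intro q hq
    rw [Finset.mem_sdiff, Finset.mem_sdiff, hP0, Finset.mem_sdiff, mem_Pz, mem_Pz, Finset.mem_singleton] at hq
    obtain ⟨⟨⟨⟨hqp, hq1⟩, hq2⟩, hq3⟩, hq4⟩ := hq
    have hq2' : yy (X ^ (1 / 100 : ℝ)) < q := by
      rw [hyy']
      by_contra hc
      exact hq2 ⟨hqp, by omega⟩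
    rw [mem_filter, mem_PW]
    refine ⟨⟨?_, hqp, fun h => hq3 (mem_filter.2 ⟨h, hq2'⟩), hq4⟩, hq2'⟩
    have : (⌊L / 100 / 10⌋₊) = yy X := by
      unfold yy
      congr 1
      rw [← hL]; ring
    omega
  have hcard : P0.card ≤ ((PW X S ps).filter (fun q => yy (X ^ (1 / 100 : ℝ)) < q)).card + S'.card + 1 := by
    have e1 : P0.card - S'.card ≤ (P0 \ S').card := le_card_sdiff _ _
    have e2 : (P0 \ S').card - ({ps} : Finset ℕ).card ≤ ((P0 \ S') \ {ps}).card := le_card_sdiff _ _
    have e3 := card_le_card hsub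
    rw [card_singleton] at e2
    omega
  have hScard : (S'.card : ℝ) ≤ 6 * L / (1000 * u ^ 2) := by
    have e1 : ∑ q ∈ S', (1000 / L) ≤ ∑ q ∈ S', (1 : ℝ) / q := by
      apply Finset.sum_le_sum
      intro q hq
      have hq' := hS.1 q (mem_filter.1 hq).1
      have hqy : (q : ℝ) ≤ L / 1000 := by
        have h5 : (q : ℝ) ≤ (yy X : ℝ) := by exact_mod_cast hq'.2.2
        exact h5.trans (Nat.floor_le (by positivity))
      have hq0 : (0 : ℝ) < q := by exact_mod_cast hq'.1.pos
      rw [div_le_div_iff₀ hL0 hq0]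
      linarith
    have e2 : ∑ q ∈ S', (1 : ℝ) / q ≤ ∑ q ∈ S, (1 : ℝ) / q := by
      apply Finset.sum_le_sum_of_subset_of_nonneg (filter_subset _ _)
      intro q _ _
      positivity
    have e3 := e1.trans (e2.trans hS.2)
    rw [Finset.sum_const, nsmul_eq_mul] at e3
    rw [mul_div_assoc', div_le_div_iff₀ hL0 (by positivity)] at e3
    rw [le_div_iff₀ (by positivity)]
    linarith
  have hmP : 1 / 100 * (L / 100) / Real.log (L / 100) ≤ (P0.card : ℝ) := hm
  have hlog100 : Real.log (L / 100) ≤ u := Real.log_le_log (by positivity) (by linarith)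
  have hlog100' : 0 < Real.log (L / 100) := Real.log_pos (by linarith)
  have hmain : L / (10000 * u) ≤ (P0.card : ℝ) := by
    refine le_trans ?_ hmP
    rw [div_le_div_iff₀ (by positivity) hlog100']
    have := mul_le_mul_of_nonneg_left hlog100 hL0.le
    linarith
  have hcard' : (P0.card : ℝ) ≤ (((PW X S ps).filter (fun q => yy (X ^ (1 / 100 : ℝ)) < q)).card : ℝ) +
      S'.card + 1 := by exact_mod_cast hcard
  have hS2 : 6 * L / (1000 * u ^ 2) ≤ L / (40000 * u) := by
    rw [div_le_div_iff₀ (by positivity) (by positivity)]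
    have : L * u * 240 ≤ L * u * u := mul_le_mul_of_nonneg_left h3 (by positivity)
    nlinarith
  have hK : 2 * (K : ℝ) + 1 ≤ L / (20000 * u) := by
    rw [le_div_iff₀ (by positivity)]
    linarith
  have e5 : L / (10000 * u) = 1 / 40000 * (L / u) + L / (40000 * u) + L / (20000 * u) := by
    field_simp
    ring
  linarith

end Pool.Agent.K6.H27.RC
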