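import Pool.Agent.H256R2.SC.Par

set_option autoImplicit false

/-! # The record function at powers (after `Pool.Agent.TH877.M2.ff_pow`, for the same function defined in
`Pool.Agent.H256R2.SC.Par`) -/

namespace Pool.Agent.K6.H27.RC

open Filter Pool.Agent.H256R2.SC

theorem ff_pow (θ : ℝ) (h0 : 0 < θ) (h1 : θ ≤ 1) : ∀ᶠ x : ℝ in atTop, θ / 8 * ff x ≤ ff (x ^ θ) := by
  have l1t := Real.tendsto_log_atTop
  have l2t : Tendsto (fun X : ℝ => Real.log (Real.log X)) atTop atTop := l1t.comp l1t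
  have l3t : Tendsto (fun X : ℝ => Real.log (Real.log (Real.log X))) atTop atTop := l1t.comp l2t
  have l4t : Tendsto (fun X : ℝ => Real.log (Real.log (Real.log (Real.log X)))) atTop atTop := l1t.comp l3t
  filter_upwards [eventually_ge_atTop (2 : ℝ), l1t.eventually_ge_atTop (max 100 (-(2 * Real.log θ))),
    l2t.eventually_ge_atTop (max 100 (-(2 * Real.log θ))), l3t.eventually_ge_atTop (max 100 (-(2 * Real.log θ))),
    l4t.eventually_ge_atTop (max 100 (-(2 * Real.log θ)))] with x hx2 m1 m2 m3 m4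
  have M1 : (100 : ℝ) ≤ max 100 (-(2 * Real.log θ)) := le_max_left _ _
  have M2 : -(2 * Real.log θ) ≤ max 100 (-(2 * Real.log θ)) := le_max_right _ _
  have hx0 : 0 < x := by linarith
  set l1 := Real.log x with hl1
  set l2 := Real.log l1 with hl2
  set l3 := Real.log l2 with hl3
  set l4 := Real.log l3 with hl4
  have p1 : 0 < l1 := by linarith
  have p2 : 0 < l2 := by linarith
  have p3 : 0 < l3 := by linarith
  have p4 : 0 < l4 := by linarith
  have hlθ : Real.log θ ≤ 0 := Real.log_nonpos h0.le h1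
  have hln2 : Real.log 2 < 1 := by have := Real.log_two_lt_d9; linarith
  have e1 : Real.log (x ^ θ) = θ * l1 := Real.log_rpow hx0 θ
  have e2 : Real.log (θ * l1) = Real.log θ + l2 := Real.log_mul h0.ne' p1.ne'
  have e2a : l2 / 2 ≤ Real.log θ + l2 := by linarith
  have e2b : Real.log θ + l2 ≤ l2 := by linarith
  have e2p : 0 < Real.log θ + l2 := by linarith
  have e3b : Real.log (Real.log θ + l2) ≤ l3 := Real.log_le_log e2p e2b
  have e3a : l3 / 2 ≤ Real.log (Real.log θ + l2) := by
    have := Real.log_le_log (by linarith) e2a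
    rw [Real.log_div p2.ne' (by norm_num)] at this
    change l3 - Real.log 2 ≤ _ at this
    linarith
  have e3p : 0 < Real.log (Real.log θ + l2) := by linarith
  have e4a : l4 / 2 ≤ Real.log (Real.log (Real.log θ + l2)) := by
    have := Real.log_le_log (by linarith) e3a
    rw [Real.log_div p3.ne' (by norm_num)] at this
    change l4 - Real.log 2 ≤ _ at this
    linarith
  have hff : ff x = l1 * l2 ^ 2 * l4 / l3 ^ 2 := rfl
  have hff2 : ff (x ^ θ) = θ * l1 * (Real.log θ + l2) ^ 2 *
      Real.log (Real.log (Real.log θ + l2)) / (Real.log (Real.log θ + l2)) ^ 2 := by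
    unfold ff
    rw [e1, e2]
  rw [hff, hff2]
  calc θ / 8 * (l1 * l2 ^ 2 * l4 / l3 ^ 2) = θ * l1 * (l2 / 2) ^ 2 * (l4 / 2) / l3 ^ 2 := by ring
    _ ≤ _ := by
      have k1 : (l2 / 2) ^ 2 ≤ (Real.log θ + l2) ^ 2 := pow_le_pow_left₀ (by linarith) e2a 2
      have k2 : (Real.log (Real.log θ + l2)) ^ 2 ≤ l3 ^ 2 := pow_le_pow_left₀ e3p.le e3b 2
      have k3 : θ * l1 * (l2 / 2) ^ 2 ≤ θ * l1 * (Real.log θ + l2) ^ 2 :=
        mul_le_mul_of_nonneg_left k1 (by positivity)
      have k4 : 0 ≤ θ * l1 * (Real.log θ + l2) ^ 2 := by positivity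
      have k5 := mul_le_mul k3 e4a (by positivity) k4
      have k6 : 0 ≤ θ * l1 * (Real.log θ + l2) ^ 2 *
          Real.log (Real.log (Real.log θ + l2)) := mul_nonneg k4 (by linarith)
      exact div_le_div₀ k6 k5 (by positivity) k2

end Pool.Agent.K6.H27.RC
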