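import Pool.Agent.H362R2.RQ.Cov
import Pool.Agent.H312R2.RG.A1
import Pool.Agent.K6.H27.RC.Pow
import Pool.Agent.K6.H27.RC.Free

set_option autoImplicit false
set_option maxHeartbeats 4000000

/-! # The covering at the record scale with prescribed numbers of hits -/

namespace Pool.Agent.K6.H27.RC

open Finset Filter
open Pool.Agent.H378R2
open Pool.Agent.H256R2.SC (ff)
open Pool.Agent.H362R2.RQ (CovR0 covR0 cov_ev0)

/-- the covering at the record scale which keeps a tuple of primes alive, with `a0` divisible by the small primes,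
in which the positions `s ∈ D` get at least `w s` hits -/
def CovD : Prop := ∀ (K : ℕ) (c₃ : ℝ), 0 < c₃ → ∃ c₂ : ℝ, 0 < c₂ ∧ ∀ z : ℕ, ∃ X0 : ℝ, ∀ X : ℝ, X0 ≤ X →
  ∀ (ps : ℕ) (S : Finset ℕ), GoodP (max 2 z) ps → GoodS X S → ∀ t : Fin K → ℕ,
  (∀ j, (t j).Prime ∧ yy X < t j ∧ (t j : ℝ) ≤ c₂ * ff X) →
  ∀ (D : Finset ℤ) (w : ℤ → ℕ), (∀ s ∈ D, (∀ j, s ≠ (t j : ℤ)) ∧ |(s : ℝ)| ≤ (Real.log X) ^ 2) →
  ((∑ s ∈ D, w s : ℕ) : ℝ) ≤ c₂ * (Real.log X / Real.log (Real.log X)) →
  ∃ a0 : ℕ, (∀ j, (a0 + t j).Coprime (WW X S ps)) ∧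
    (((range (⌊c₂ * ff X⌋₊ + 1)).filter
      (fun s => (∀ j, s ≠ t j) ∧ (a0 + s).Coprime (WW X S ps))).card : ℝ) ≤ c₃ * Real.log X ∧
    (∀ p : ℕ, p.Prime → p ≤ z → p ∣ a0 ∧ p ∣ WW X S ps) ∧
    ∀ s ∈ D, w s ≤ ((PW X S ps).filter (fun p : ℕ => (p : ℤ) ∣ (a0 : ℤ) + s)).card

theorem coprime_WW {X : ℝ} {S : Finset ℕ} {ps : ℕ} (n : ℕ) :
    n.Coprime (WW X S ps) ↔ ∀ p ∈ PW X S ps, ¬ p ∣ n := by
  unfold WW
  rw [Nat.coprime_prod_right_iff]
  constructor
  · intro h p hp hs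
    have h1 := h p hp
    rw [Nat.coprime_comm, Nat.Prime.coprime_iff_not_dvd (mem_PW.1 hp).2.1] at h1
    exact h1 hs
  · intro h p hp
    rw [Nat.coprime_comm, Nat.Prime.coprime_iff_not_dvd (mem_PW.1 hp).2.1]
    exact h p hp

theorem covD : CovD := by
  classical
  intro K c₃ hc₃
  obtain ⟨c₂, hc₂, hcov⟩ := covR0 K c₃ hc₃
  have hff := ff_pow (1 / 100) (by norm_num) (by norm_num)
  set c : ℝ := min (c₂ / 800) (1 / 40000) with hc
  have hc0 : 0 < c := lt_min (by positivity) (by norm_num)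
  have hc1 : c ≤ c₂ / 800 := min_le_left _ _
  have hc2 : c ≤ 1 / 40000 := min_le_right _ _
  refine ⟨c, hc0, fun z => ?_⟩
  obtain ⟨X1, hX1⟩ := hcov z
  rw [← Filter.eventually_atTop]
  have tpow : Tendsto (fun X : ℝ => X ^ (1 / 100 : ℝ)) atTop atTop := tendsto_rpow_atTop (by norm_num)
  have hl := Real.tendsto_log_atTop
  have hll : Tendsto (fun X : ℝ => Real.log (Real.log X)) atTop atTop := hl.comp hl
  filter_upwards [free_primes K, tpow.eventually_ge_atTop X1, hff,
    hl.eventually_ge_atTop (10 ^ 16), hll.eventually_ge_atTop 1,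
    tpow.eventually (eventually_atTop.2 ⟨_, fun X hX => (eventually_atTop.1 (cov_ev0 z)).choose_spec X hX⟩),
    eventually_ge_atTop 1, (hll.comp tpow).eventually_ge_atTop 1,
    (Pool.Agent.H312R2.RG.ev_ff c hc0)]
    with X hfree hXX1 f2 hL16 hll1 hz0 hX1' hll' hffc ps S hps hS t ht D w hD hw
  set L := Real.log X with hL
  have hX0 : 0 < X := by linarith
  set Y := X ^ (1 / 100 : ℝ) with hY
  have hL0 : 0 < L := by linarith [show (0:ℝ) < 10 ^ 16 by norm_num]
  have hlogY : Real.log Y = L / 100 := by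
    rw [hY, Real.log_rpow hX0]; ring
  simp only [Function.comp] at hll'
  rw [hlogY] at hll'
  obtain ⟨hz2Y, hzyY, -⟩ := hz0

  have hffX : 0 ≤ ff X := hffc.2.1
  have hcff : c * ff X ≤ c₂ * ff Y := by
    calc c * ff X ≤ c₂ / 800 * ff X := mul_le_mul_of_nonneg_right hc1 hffX
      _ = c₂ * (1 / 100 / 8 * ff X) := by ring
      _ ≤ c₂ * ff Y := mul_le_mul_of_nonneg_left f2 hc₂.le
  have hyyle : yy Y ≤ yy X := yy_pow_le X hX1'
  -- the small modulus
  set S' := S.filter (fun q => q ≤ yy Y) with hS'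
  have hGS : GoodS Y S' := by
    refine ⟨?_, ?_⟩
    · intro q hq
      rw [hS', mem_filter] at hq
      obtain ⟨h1, h2, h3⟩ := hS.1 q hq.1
      refine ⟨h1, lt_of_le_of_lt ?_ h2, hq.2⟩
      unfold z2
      apply Nat.ceil_le_ceil
      apply pow_le_pow_left₀
      · rw [hlogY]; linarith
      · rw [hlogY]
        apply Real.log_le_log (by positivity)
        linarith
    · refine le_trans ?_ (hS.2.trans ?_)
      · apply Finset.sum_le_sum_of_subset_of_nonneg (filter_subset _ _)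
        intro q _ _
        positivity
      · rw [hlogY, ← hL]
        have h1 : Real.log (L / 100) ≤ Real.log L := Real.log_le_log (by positivity) (by linarith)
        have h2 : 0 < Real.log (L / 100) := by linarith
        apply div_le_div_of_nonneg_left (by norm_num) (by positivity)
        exact pow_le_pow_left₀ h2.le h1 2
  have htY : ∀ j, (t j).Prime ∧ yy Y < t j ∧ (t j : ℝ) ≤ c₂ * ff Y := fun j =>
    ⟨(ht j).1, lt_of_le_of_lt hyyle (ht j).2.1, (ht j).2.2.trans hcff⟩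
  obtain ⟨a', ha1, ha2, ha3⟩ := hX1 Y hXX1 ps S' hps hGS t htY
  -- the free primes
  set Q := (PW X S ps).filter (fun q => yy Y < q) with hQ
  have hsubPW : ∀ p ∈ PW Y S' ps, p ∈ PW X S ps := by
    intro p hp
    rw [mem_PW] at hp ⊢
    refine ⟨hp.1.trans hyyle, hp.2.1, ?_, hp.2.2.2⟩
    intro h
    exact hp.2.2.1 (mem_filter.2 ⟨h, hp.1⟩)
  have hPWsmall : ∀ p ∈ PW X S ps, p ≤ yy Y → p ∈ PW Y S' ps := by
    intro p hp hpy
    rw [mem_PW] at hp ⊢
    exact ⟨hpy, hp.2.1, fun h => hp.2.2.1 (mem_filter.1 h).1, hp.2.2.2⟩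
  -- the forbidden primes of a position
  set F : ℤ → Finset ℕ := fun s => (univ : Finset (Fin K)).biUnion
    (fun j => Q.filter (fun q : ℕ => (q : ℤ) ∣ s - t j)) with hF
  have hFcard : ∀ s ∈ D, (F s).card ≤ 2 * K := by
    intro s hs
    have h1 : (F s).card ≤ ∑ j : Fin K, 2 := by
      refine card_biUnion_le.trans (Finset.sum_le_sum fun j _ => ?_)
      apply few_divisors Q (1 / 100000) L (by norm_num) hL0 (by linarith [hL16]) (by linarith)
      · intro q hq
        rw [hQ, mem_filter, mem_PW] at hq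
        refine ⟨hq.1.2.1, ?_⟩
        have h2 : yy Y = ⌊L / 100 / 1000⌋₊ := yy_pow X hX0
        have h3 : ⌊L / 100 / 1000⌋₊ < q := h2 ▸ hq.2
        have h4 := (Nat.floor_lt (by positivity)).1 h3
        linarith
      · intro h0
        exact (hD s hs).1 j (by linarith)
      · push_cast
        have h5 := (hD s hs).2
        have h6 : (t j : ℝ) ≤ L ^ 2 := (ht j).2.2.trans hffc.1
        have h7 : (0 : ℝ) ≤ t j := Nat.cast_nonneg _
        rw [abs_le] at h5 ⊢
        constructor <;> linarith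
    rw [Finset.sum_const, card_univ, Fintype.card_fin, smul_eq_mul] at h1
    omega
  obtain ⟨B, hB1, hB2⟩ := assign D w Q F (2 * K) hFcard (by
    have h1 := hfree ps S hS
    have h2 : 0 ≤ L / Real.log L := by
      apply div_nonneg hL0.le; linarith
    have h3 := mul_le_mul_of_nonneg_right hc2 h2
    have h4 : ((∑ s ∈ D, w s + 2 * K : ℕ) : ℝ) ≤ (Q.card : ℝ) := by
      push_cast at hw ⊢
      linarith
    exact_mod_cast h4)
  -- the residues
  set pos : ℕ → ℤ := fun p => if h : ∃ s ∈ D, p ∈ B s then h.choose else 0 with hpos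
  have hposB : ∀ s ∈ D, ∀ p ∈ B s, pos p = s := by
    intro s hs p hp
    have h : ∃ s ∈ D, p ∈ B s := ⟨s, hs, hp⟩
    have h1 : pos p = h.choose := by rw [hpos]; exact dif_pos h
    have h2 := h.choose_spec
    rw [h1]
    by_contra hne
    exact Finset.disjoint_left.1 (hB2 _ h2.1 s hs hne) h2.2 hp
  set res : ℕ → ℕ := fun p => if p ≤ yy Y then a' else ((-(pos p)) % (p : ℤ)).toNat with hres
  obtain ⟨a0, ha0⟩ := Nat.chineseRemainderOfFinset res (fun p => p) (PW X S ps)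
    (fun p hp => (mem_PW.1 hp).2.1.ne_zero)
    (fun p hp q hq hpq => (Nat.coprime_primes (mem_PW.1 (by simpa using hp)).2.1
      (mem_PW.1 (by simpa using hq)).2.1).2 hpq)
  have hsmall : ∀ p ∈ PW X S ps, p ≤ yy Y → a0 ≡ a' [MOD p] := by
    intro p hp hpy
    have h1 := ha0 p hp
    simp only [hres, if_pos hpy] at h1
    exact h1
  have hlarge : ∀ p ∈ PW X S ps, ¬ p ≤ yy Y → (p : ℤ) ∣ (a0 : ℤ) + pos p := by
    intro p hp hpy
    have hp0 : (p : ℤ) ≠ 0 := by exact_mod_cast (mem_PW.1 hp).2.1.ne_zero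
    have h1 := ha0 p hp
    simp only [hres, if_neg hpy] at h1
    have h2 : (a0 : ℤ) ≡ (((-(pos p)) % (p : ℤ)).toNat : ℤ) [ZMOD p] := (Int.natCast_modEq_iff).2 h1
    rw [Int.toNat_of_nonneg (Int.emod_nonneg _ hp0)] at h2
    have h3 : (a0 : ℤ) ≡ -(pos p) [ZMOD p] := h2.trans (Int.mod_modEq _ _)
    have h4 := h3.symm.dvd
    have h5 : (a0 : ℤ) - -(pos p) = a0 + pos p := by ring
    rwa [h5] at h4
  have hcopt : ∀ j, (a0 + t j).Coprime (WW X S ps) := by
    intro j
    rw [coprime_WW]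
    intro p hp hd
    by_cases hpy : p ≤ yy Y
    · have h1 := (coprime_WW _).1 (ha1 j) p (hPWsmall p hp hpy)
      apply h1
      have h2 : a0 + t j ≡ a' + t j [MOD p] := (hsmall p hp hpy).add_right _
      exact (Nat.modEq_zero_iff_dvd).1 (h2.symm.trans ((Nat.modEq_zero_iff_dvd).2 hd))
    · have h1 := hlarge p hp hpy
      have hd' : (p : ℤ) ∣ (a0 : ℤ) + t j := by exact_mod_cast hd
      have h2 : (p : ℤ) ∣ pos p - t j := by
        have := dvd_sub h1 hd'
        have h3 : (a0 : ℤ) + pos p - (a0 + t j) = pos p - t j := by ring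
        rwa [h3] at this
      by_cases hex : ∃ s ∈ D, p ∈ B s
      · obtain ⟨s, hs, hps'⟩ := hex
        rw [hposB s hs p hps'] at h2
        have h3 : p ∈ F s := by
          rw [hF]
          simp only [mem_biUnion, mem_univ, true_and]
          exact ⟨j, mem_filter.2 ⟨(hB1 s hs).1 hps', h2⟩⟩
        exact Finset.disjoint_left.1 (hB1 s hs).2.1 hps' h3
      · have h3 : pos p = 0 := by rw [hpos]; exact dif_neg hex
        rw [h3, zero_sub, dvd_neg] at h2
        have h4 : p ∣ t j := by exact_mod_cast h2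
        have h5 := (Nat.prime_dvd_prime_iff_eq (mem_PW.1 hp).2.1 (ht j).1).1 h4
        have h6 := (mem_PW.1 hp).1
        have h7 := (ht j).2.1
        omega
  refine ⟨a0, hcopt, ?_, ?_, ?_⟩
  · have hset : (range (⌊c * ff X⌋₊ + 1)).filter
        (fun s => (∀ j, s ≠ t j) ∧ (a0 + s).Coprime (WW X S ps)) ⊆
        (range (⌊c₂ * ff Y⌋₊ + 1)).filter
        (fun s => (∀ j, s ≠ t j) ∧ (a' + s).Coprime (WW Y S' ps)) := by
      intro s hs
      rw [mem_filter, mem_range] at hs ⊢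
      refine ⟨?_, hs.2.1, ?_⟩
      · have := Nat.floor_le_floor hcff
        omega
      · rw [coprime_WW]
        intro p hp hd
        have hpX := hsubPW p hp
        have h1 := (coprime_WW _).1 hs.2.2 p hpX
        apply h1
        have h2 : a0 + s ≡ a' + s [MOD p] := (hsmall p hpX (mem_PW.1 hp).1).add_right _
        exact (Nat.modEq_zero_iff_dvd).1 (h2.trans ((Nat.modEq_zero_iff_dvd).2 hd))
    have h1 : (((range (⌊c * ff X⌋₊ + 1)).filter
        (fun s => (∀ j, s ≠ t j) ∧ (a0 + s).Coprime (WW X S ps))).card : ℝ) ≤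
        ((range (⌊c₂ * ff Y⌋₊ + 1)).filter
        (fun s => (∀ j, s ≠ t j) ∧ (a' + s).Coprime (WW Y S' ps))).card := by
      exact_mod_cast card_le_card hset
    refine h1.trans (ha2.trans ?_)
    rw [hlogY]
    apply mul_le_mul_of_nonneg_left _ hc₃.le
    linarith
  · intro p hpp hpz
    obtain ⟨h1, h2⟩ := ha3 p hpp hpz
    have hpY := (prime_dvd_WW hpp).1 h2
    have hpX := hsubPW p hpY
    refine ⟨?_, (prime_dvd_WW hpp).2 hpX⟩
    exact (Nat.modEq_zero_iff_dvd).1 ((hsmall p hpX (mem_PW.1 hpY).1).trans ((Nat.modEq_zero_iff_dvd).2 h1))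
  · intro s hs
    rw [← (hB1 s hs).2.2]
    apply card_le_card
    intro p hp
    have hpQ := (hB1 s hs).1 hp
    rw [hQ, mem_filter] at hpQ
    rw [mem_filter]
    refine ⟨hpQ.1, ?_⟩
    have h1 := hlarge p hpQ.1 (by omega)
    rwa [hposB s hs p hp] at h1

end Pool.Agent.K6.H27.RC
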