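import Pool.Agent.H312R2.RG.A
import Pool.Agent.K6.H27.RC.Cov

set_option autoImplicit false
set_option maxHeartbeats 4000000

/-! # Maynard-Tao inside the record windows with prescribed numbers of prime factors at other positions -/

open Finset Filter
open scoped ContDiff

namespace Pool.Agent.K6.H27.RC

open Pool.Agent.H378R2
open Pool.Agent.H312R2.RG
open Pool.Agent.H398R2.PG (Et EE_sub_Et Et_res familyR ev_RR)
open Pool.Agent.H256R2.SC (ff)

/-- Maynard-Tao inside the record windows, with the small primes dividing `n` and with prescribed numbers of prime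
factors at the positions `s ∈ D` -/
def MTD : Prop := ∀ r : ℕ, ∃ K : ℕ, r ≤ K ∧ ∃ c : ℝ, 0 < c ∧ ∀ z : ℕ, ∃ X0 : ℝ, ∀ X : ℝ, X0 ≤ X →
  ∀ t : Fin K → ℕ, Function.Injective t →
  (∀ j, (t j).Prime ∧ yy X < t j ∧ (t j : ℝ) ≤ c * ff X) →
  ∀ (D : Finset ℤ) (w : ℤ → ℕ), (∀ s ∈ D, (∀ j, s ≠ (t j : ℤ)) ∧ |(s : ℝ)| ≤ (Real.log X) ^ 2) →
  ((∑ s ∈ D, w s : ℕ) : ℝ) ≤ c * (Real.log X / Real.log (Real.log X)) →
  ∀ bad : Finset ℕ, (bad.card : ℝ) ≤ X ^ (9 / 10 : ℝ) →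
  ∃ n : ℕ, X < n ∧ (n : ℝ) ≤ 3 * X ∧ n ∉ bad ∧ r ≤ ((univ : Finset (Fin K)).filter (fun j => (n + t j).Prime)).card ∧
    (∀ s : ℕ, (s : ℝ) ≤ c * ff X → (n + s).Prime → ∃ j, s = t j) ∧
    (∀ p : ℕ, p.Prime → p ≤ z → p ∣ n) ∧
    ∀ s ∈ D, w s ≤ (((n : ℤ) + s).natAbs.primeFactors.filter (fun p : ℕ => (p : ℝ) ≤ Real.log X)).card

theorem ev_logsq : ∀ᶠ X : ℝ in atTop, (Real.log X) ^ 2 ≤ X := by
  have h := (Real.isLittleO_pow_log_id_atTop (n := 2)).def (show (0 : ℝ) < 1 by norm_num)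
  filter_upwards [h, eventually_ge_atTop (1 : ℝ)] with t ht h1
  rw [one_mul, Real.norm_eq_abs, Real.norm_eq_abs, id, abs_of_nonneg (by positivity), abs_of_nonneg (by linarith)] at ht
  exact ht

/-- Maynard-Tao inside the record windows (after `Pool.Agent.H312R2.RG.mtrg_of`), with the small primes dividing `n`
and with prescribed numbers of prime factors at the positions `s ∈ D` -/
theorem mtd_of (h5 : Pool.Agent.H378R2.SieveAsymp) (hbv : Pool.Agent.H378R2.BVrel) (hcov : CovD)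
    (hw : Weights) : MTD := by
  classical
  intro r
  obtain ⟨K0, B, f, c, A, hsm, hcs, hf0, hc, hA, hf1, hIpos, hratio, hrK⟩ := familyR (1600000 * (r + 3)) r
  have hKpos : (0 : ℝ) < ((K0 + 1 : ℕ) : ℝ) := by positivity
  obtain ⟨ε1, hε1⟩ : ∃ ε1 : ℝ, ε1 = II f A / (((K0 + 1 : ℕ) : ℝ) + r + 1) := ⟨_, rfl⟩
  have hrnn : (0 : ℝ) ≤ r := Nat.cast_nonneg r
  have hden : (0 : ℝ) < ((K0 + 1 : ℕ) : ℝ) + r + 1 := by positivity
  have hε1pos : 0 < ε1 := by rw [hε1]; positivity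
  have hε1eq : (((K0 + 1 : ℕ) : ℝ) + r + 1) * ε1 = II f A := by
    rw [hε1]; field_simp
  have hε1le : (((K0 + 1 : ℕ) : ℝ) + r) * ε1 ≤ II f A := by linarith
  have hε1le2 : ε1 ≤ II f A := by
    have : 0 ≤ (((K0 + 1 : ℕ) : ℝ) + r) * ε1 := by positivity
    linarith
  obtain ⟨Aw, c₃, hc₃, hw1⟩ := hw (K0 + 1) (K0 + 5)
  obtain ⟨c₂, hc₂, hcov0⟩ := hcov (K0 + 1) (c₃ / 2) (by positivity)
  refine ⟨K0 + 1, hrK, c₂, hc₂, fun z => ?_⟩
  obtain ⟨X2, hcov1⟩ := hcov0 z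
  obtain ⟨Z, hZdef⟩ : ∃ Z : ℕ, Z = max 2 z := ⟨_, rfl⟩
  rw [← hZdef] at hcov1
  obtain ⟨X3, hbvX⟩ := hbv Aw (max Z 4)
  have hw2 := hw1 (max Z 4)
  have hη : 0 < II f A / 160 := by positivity
  rw [← Filter.eventually_atTop]
  filter_upwards [S1_boundV h5 f c A hsm hcs hf0 hc hA hf1 ε1 hε1pos,
    S2_boundV h5 f c A hsm hcs hf0 hc hA hf1 ε1 hε1pos,
    EE_facts 0, LPhi_ge, errRG (K0 + 1) A.card (II f A / 160) (Nat.cast_nonneg _) hη,
    LL_tendsto.eventually_ge_atTop 1, eventually_ge_atTop 40, eventually_ge_atTop X2, eventually_ge_atTop X3,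
    Et2_sub (K := K0 + 1), BE_Et2_ge (K0 + 1), ev_ff c₂ hc₂, hw2,
    ev_main K0 r A.card (II f A) hIpos, Real.tendsto_log_atTop.eventually_ge_atTop (2 / c₃),
    ev_logsq] with X hS1 hS2 hEf hLP herr hL1 hX40 hX2 hX3 hEtsub hBEt hff hwX hmain hlc hlog2
  intro t htinj htup D w hD hwD bad hbad
  obtain ⟨ps, S, hps, hS, hbvS⟩ := hbvX X hX3
  have hpsZ : GoodP Z ps := by
    rcases hps with h | h
    · exact Or.inl h
    · exact Or.inr ⟨h.1, lt_of_le_of_lt (le_max_left _ _) h.2⟩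
  obtain ⟨a0, hcop, hcard, ha0z, ha0D⟩ := hcov1 X hX2 ps S hpsZ hS t htup D w hD hwD
  have htT : ∀ j, (t j : ℝ) ≤ c₂ * ff X := fun j => (htup j).2.2
  have htl : ∀ j, (t j : ℝ) ≤ (Real.log X) ^ 2 := fun j => (htT j).trans hff.1
  have hWpos : 0 < WW X S ps := WW_pos X S ps
  have hWr : (0 : ℝ) < (WW X S ps : ℝ) := by exact_mod_cast hWpos
  have hXpos : 0 < X := by linarith
  have hlX : 1 ≤ Real.log X := hmain.2.2
  have hffnn : 0 ≤ c₂ * ff X := mul_nonneg hc₂.le hff.2.1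
  -- the survivors
  set U0 := (range (⌊c₂ * ff X⌋₊ + 1)).filter (fun s => (∀ j, s ≠ t j) ∧ (a0 + s).Coprime (WW X S ps)) with hU0
  set U := insert 0 U0 with hU
  have hUcard : (U.card : ℝ) ≤ c₃ * Real.log X := by
    have h1 : (U.card : ℝ) ≤ U0.card + 1 := by
      rw [hU]
      exact_mod_cast Finset.card_insert_le 0 U0
    have h2 : 2 / c₃ * c₃ ≤ Real.log X * c₃ := mul_le_mul_of_nonneg_right hlc hc₃.le
    have h3 : 2 / c₃ * c₃ = 2 := by field_simp
    rw [h3] at h2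
    have h4 : c₃ / 2 * Real.log X = Real.log X * c₃ / 2 := by ring
    rw [h4] at hcard
    linarith
  have hUk : ∀ k ∈ U, (k : ℝ) ≤ (Real.log X) ^ 2 := by
    intro k hk
    rw [hU, Finset.mem_insert] at hk
    rcases hk with rfl | hk
    · push_cast; positivity
    · rw [hU0, Finset.mem_filter, Finset.mem_range] at hk
      have h1 : (k : ℝ) ≤ c₂ * ff X := (Nat.le_floor_iff hffnn).1 (by omega)
      exact h1.trans hff.1
  have hUt : ∀ j, t j ∉ U := by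
    intro j hj
    rw [hU, Finset.mem_insert] at hj
    rcases hj with hj | hj
    · exact (htup j).1.ne_zero hj
    · rw [hU0, Finset.mem_filter] at hj
      exact hj.2.1 j rfl
  have hUne : U.Nonempty := ⟨0, by rw [hU]; exact Finset.mem_insert_self _ _⟩
  obtain ⟨V, T, Z₁, M, M', M₂, e₁, e₂, e₃, hV, hTnn, hTU, hZ1, hM1, hMZ, hM', hM₂0, hM₂le, he, hcA, hcA2, hcB,
    ht1, ht2, ht3⟩ := hwX ps S hps hS hbvS t U htl hUk hUt hUne hUcard
  set E := Et X S ps t with hE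
  have hEE : EE X S ps ⊆ E := EE_sub_Et X S ps t
  have hEsup : E ⊆ Esup X ps := hEtsub ps S t htl
  have hres := Et_res (X := X) (S := S) (ps := ps) htinj
  have hMM : MPhi X / 400 ≤ LPhi X := by
    have := MPhi_le X (by linarith)
    linarith
  have hM0 : 0 ≤ M := by linarith
  have hM'0 : 0 ≤ M' := by linarith
  have hM₂s : ((K0 + 1 : ℕ) : ℝ) * M₂ ≤ Z₁ / 8 := by
    have h1 : ((K0 + 1 : ℕ) : ℝ) * M₂ ≤ ((K0 + 1 : ℕ) : ℝ) * (Z₁ / (Real.log X) ^ (K0 + 5)) :=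
      mul_le_mul_of_nonneg_left hM₂le hKpos.le
    refine h1.trans ?_
    have hlp : 0 < (Real.log X) ^ (K0 + 5) := by positivity
    rw [mul_div_assoc', div_le_div_iff₀ hlp (by norm_num)]
    have h2 := mul_le_mul_of_nonneg_left hmain.2.1 (show (0 : ℝ) ≤ Z₁ by linarith)
    linarith
  have ht3nn : 0 ≤ tot (K0 + 1) X (WW X S ps) ps e₃ := by
    unfold tot
    exact Finset.sum_nonneg fun q _ => mul_nonneg (by positivity) (he q).2.2
  have hVT : ∀ a, 0 ≤ (fun a => V a * T a) a := fun a => mul_nonneg (hV a).1 (hTnn a)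
  have hpos := pos_atRG K0 B r f c A hf0 hA hf1 hIpos ε1 X hε1pos hε1le hε1le2 hratio ps a0 S t hX40 hL1 hMM
    E hEsup (hBEt (max Z 4) ps S t (le_max_right _ _) hps hS htl) V T Z₁ M M' M₂ _ _ _ hV hZ1 hM1 hMZ hM' hM₂0
    hM₂s ht3nn
    (hS1 (max Z 4) ps S a0 t hps hS E hEE hEsup hres V M e₁ hM0 (fun q => (he q).1) hcA)
    (fun i => hS2 (max Z 4) ps S a0 t hps hS E hEE hEsup hres htl hcop V M' (X ^ (1 / 100 : ℝ)) e₃ hM'0
      (by positivity) (fun a => by rw [abs_of_nonneg (hV a).1]; exact (hV a).2) (fun q => (he q).2.2) i (hcB i))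
    (hS1 (max Z 4) ps S a0 t hps hS E hEE hEsup hres (fun a => V a * T a) M₂ e₂ hM₂0 (fun q => (he q).2.1) hcA2)
    (tot_err K0 r A.card (II f A) X (WW X S ps) Z₁ _ _ _ hIpos hXpos hWr hZ1 hlX hmain.1 ht1 ht2 ht3)
    (herr _ hWr (WW_le X (by linarith) S ps)) bad hbad
  obtain ⟨n, hn, hnpos⟩ : ∃ n ∈ Icc 1 ⌊3 * X⌋₊, 0 < (nu X (WW X S ps) a0 n *
      sqw E X f A (fun j => (n : ℤ) + t j) ^ 2 * V n) *
      ((∑ i, th (n + t i)) / Real.log (4 * X) - r - ((K0 + 1 : ℕ) : ℝ) * T n -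
      ((K0 + 1 : ℕ) : ℝ) * (if n ∈ bad then 1 else 0)) := by
    by_contra hcon
    push Not at hcon
    exact absurd hpos (not_lt.2 (Finset.sum_nonpos hcon))
  have hWnn : 0 ≤ nu X (WW X S ps) a0 n * sqw E X f A (fun j => (n : ℤ) + t j) ^ 2 * V n :=
    mul_nonneg (mul_nonneg (nu_nonneg _ _ _ _) (sq_nonneg _)) (hV n).1
  have hWpos' : 0 < nu X (WW X S ps) a0 n * sqw E X f A (fun j => (n : ℤ) + t j) ^ 2 * V n := by
    rcases hWnn.eq_or_lt with h | h
    · rw [← h, zero_mul] at hnpos; exact absurd hnpos (lt_irrefl _)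
    · exact h
  have hBrpos := (mul_pos_iff_of_pos_left hWpos').1 hnpos
  have hnu : nu X (WW X S ps) a0 n ≠ 0 := by
    intro h
    rw [h, zero_mul, zero_mul] at hWpos'
    exact lt_irrefl _ hWpos'
  have hXn : X < n := by
    by_contra hle
    push Not at hle
    apply hnu
    unfold nu
    rw [Phi_eq_zero_of_le (by positivity) (by rw [div_le_one hXpos]; exact hle), ite_self]
  have hcl : n ≡ a0 [MOD WW X S ps] := by
    by_contra h
    apply hnu
    unfold nu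
    rw [if_neg h]
  have hn3 : (n : ℝ) ≤ 3 * X := by
    rw [Finset.mem_Icc] at hn
    exact (Nat.cast_le.2 hn.2).trans (Nat.floor_le (by linarith))
  have hyX : (yy X : ℝ) < X := by
    have h1 : (yy X : ℝ) ≤ Real.log X / 1000 := Nat.floor_le (by positivity)
    have h2 := Real.log_le_sub_one_of_pos hXpos
    linarith
  have hfin := finishRG K0 r (c₂ * ff X) X ps a0 S t htT hX40 (by linarith [hff.2.2]) hyX U (by
    intro s hs hst hsc
    rw [hU, Finset.mem_insert]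
    right
    rw [hU0, Finset.mem_filter, Finset.mem_range, Nat.lt_succ_iff]
    exact ⟨Nat.le_floor hs, hst, hsc⟩) T hTnn hTU bad n hXn hn3 hcl hBrpos
  refine ⟨n, hXn, hn3, hfin.1, hfin.2.1, hfin.2.2, ?_, ?_⟩
  · intro p hpp hpz
    obtain ⟨h1, h2⟩ := ha0z p hpp hpz
    exact (Nat.modEq_zero_iff_dvd).1 ((hcl.of_dvd h2).trans ((Nat.modEq_zero_iff_dvd).2 h1))
  · intro s hs
    refine (ha0D s hs).trans (Finset.card_le_card ?_)
    intro p hp
    rw [Finset.mem_filter] at hp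
    have hpPW := mem_PW.1 hp.1
    have hpy : (p : ℝ) ≤ Real.log X := by
      have h1 : (p : ℝ) ≤ yy X := by exact_mod_cast hpPW.1
      have h2 : (yy X : ℝ) ≤ Real.log X / 1000 := Nat.floor_le (by positivity)
      linarith
    have hmod : (n : ℤ) ≡ a0 [ZMOD p] :=
      (Int.natCast_modEq_iff).2 (hcl.of_dvd ((prime_dvd_WW hpPW.2.1).2 hp.1))
    have hd : (p : ℤ) ∣ (n : ℤ) + s := by
      have h1 := (hmod.add_right s)
      exact (Int.modEq_zero_iff_dvd).1 (h1.trans ((Int.modEq_zero_iff_dvd).2 hp.2))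
    have hsn : (n : ℤ) + s ≠ 0 := by
      intro h0
      have h1 := (hD s hs).2
      have h2 : (s : ℝ) = -(n : ℝ) := by
        have h3 : s = -(n : ℤ) := by linarith
        rw [h3]; push_cast; ring
      rw [h2, abs_neg, Nat.abs_cast] at h1
      have h4 := hlog2
      linarith
    rw [Finset.mem_filter, Nat.mem_primeFactors]
    exact ⟨⟨hpPW.2.1, Int.natCast_dvd.1 hd, Int.natAbs_ne_zero.2 hsn⟩, hpy⟩

end Pool.Agent.K6.H27.RC
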