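import Pool.Agent.H312R2.RG.C1
import Pool.Agent.H362R2.RQ.PrimeAP
import Pool.Agent.K6.H27.RC.Eng

set_option autoImplicit false
set_option maxHeartbeats 4000000

/-! # Chains of record gaps between primes with prescribed numbers of prime factors at all shifts -/

namespace Pool.Agent.K6.H27.RC

open Finset Filter
open Pool.Agent.H256R2.SC (ff)
open Pool.Agent.H378R2 (yy)
open Pool.Agent.H312R2.RG (c1_ff_log c1_card ev_ff)
open Pool.Agent.H362R2.RQ (exists_prime_mod)

/-- well separated primes in a residue class -/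
theorem primes_mod (K q a : ℕ) (hq : 0 < q) (ha : a.Coprime q) : ∃ H₀ : ℝ, ∀ H : ℝ, H₀ ≤ H →
    ∃ t : Fin K → ℕ, (∀ j, (t j).Prime ∧ t j ≡ a [MOD q] ∧ H / 2 < t j ∧ (t j : ℝ) ≤ H) ∧
      ∀ i j : Fin K, i < j → H / (4 * (K + 1)) ≤ (t j : ℝ) - t i := by
  have hK : (0 : ℝ) ≤ K := Nat.cast_nonneg K
  obtain ⟨y₀, hy₀⟩ := eventually_atTop.1 (exists_prime_mod q hq a ha (1 / (4 * (K + 1))) (by positivity))
  refine ⟨max (2 * y₀) 1, fun H hH => ?_⟩
  have hH1 : 1 ≤ H := (le_max_right _ _).trans hH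
  have hH2 : 2 * y₀ ≤ H := (le_max_left _ _).trans hH
  obtain ⟨g, hg⟩ : ∃ g : ℝ, g = H / (4 * (K + 1)) := ⟨_, rfl⟩
  have hg0 : 0 < g := by rw [hg]; positivity
  have hgK : 4 * (K + 1) * g = H := by rw [hg]; field_simp
  have hex : ∀ j : Fin K, ∃ p : ℕ, (p.Prime ∧ p ≡ a [MOD q]) ∧ H / 2 + 2 * g * j < p ∧
      (p : ℝ) ≤ H / 2 + 2 * g * j + g := by
    intro j
    have hj : ((j : ℕ) : ℝ) + 1 ≤ K := by exact_mod_cast j.2
    have hj0 : (0 : ℝ) ≤ ((j : ℕ) : ℝ) := Nat.cast_nonneg _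
    obtain ⟨p, hp, hpa, h1, h2⟩ := hy₀ (H / 2 + 2 * g * j) (by
      have : 0 ≤ 2 * g * (j : ℝ) := by positivity
      linarith)
    refine ⟨p, ⟨hp, hpa⟩, h1, h2.trans ?_⟩
    have h3 : H / 2 + 2 * g * j ≤ H := by
      have : 2 * g * ((j : ℝ) + 1) ≤ 2 * g * K := by gcongr
      nlinarith
    have h4 : 1 / (4 * ((K : ℝ) + 1)) * (H / 2 + 2 * g * j) ≤ 1 / (4 * ((K : ℝ) + 1)) * H :=
      mul_le_mul_of_nonneg_left h3 (by positivity)
    have h5 : 1 / (4 * ((K : ℝ) + 1)) * H = g := by rw [hg]; ring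
    linarith
  choose t ht1 ht2 ht3 using hex
  refine ⟨t, fun j => ⟨(ht1 j).1, (ht1 j).2, ?_, ?_⟩, ?_⟩
  · have := ht2 j
    have : 0 ≤ 2 * g * ((j : ℕ) : ℝ) := by positivity
    linarith
  · have h1 := ht3 j
    have hj : ((j : ℕ) : ℝ) + 1 ≤ K := by exact_mod_cast j.2
    have : 2 * g * (((j : ℕ) : ℝ) + 1) ≤ 2 * g * K := by gcongr
    nlinarith
  · intro i j hij
    have hij' : ((i : ℕ) : ℝ) + 1 ≤ ((j : ℕ) : ℝ) := by exact_mod_cast hij
    have h1 := ht3 i
    have h2 := ht2 j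
    have h3 : 2 * g * (((i : ℕ) : ℝ) + 1) ≤ 2 * g * ((j : ℕ) : ℝ) := by gcongr
    rw [← hg]
    linarith

/-- the demands at the positions -/
theorem demands {K : ℕ} (t : Fin K → ℕ) (HH : Finset ℤ) (w : ℤ → ℕ) :
    ∃ (D : Finset ℤ) (w' : ℤ → ℕ), (∀ s ∈ D, ∃ j, ∃ h ∈ HH, s = (t j : ℤ) + h) ∧
      (∀ j, ∀ h ∈ HH, (t j : ℤ) + h ∈ D) ∧
      ∑ s ∈ D, w' s = K * ∑ h ∈ HH, w h ∧ ∀ j, ∀ h ∈ HH, w h ≤ w' ((t j : ℤ) + h) := by
  classical
  set D : Finset ℤ := (univ : Finset (Fin K)).biUnion (fun j => HH.image (fun h => (t j : ℤ) + h)) with hD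
  set w' : ℤ → ℕ := fun s => ∑ j : Fin K, ∑ h ∈ HH, if (t j : ℤ) + h = s then w h else 0 with hw'
  have hmem : ∀ j, ∀ h ∈ HH, (t j : ℤ) + h ∈ D := by
    intro j h hh
    rw [hD, mem_biUnion]
    exact ⟨j, mem_univ _, mem_image_of_mem _ hh⟩
  refine ⟨D, w', ?_, hmem, ?_, ?_⟩
  · intro s hs
    rw [hD, mem_biUnion] at hs
    obtain ⟨j, -, hj⟩ := hs
    obtain ⟨h, hh, rfl⟩ := mem_image.1 hj
    exact ⟨j, h, hh, rfl⟩
  · rw [hw', Finset.sum_comm]
    have : ∀ j ∈ (univ : Finset (Fin K)), ∑ s ∈ D, ∑ h ∈ HH, (if (t j : ℤ) + h = s then w h else 0) =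
        ∑ h ∈ HH, w h := by
      intro j _
      rw [Finset.sum_comm]
      apply Finset.sum_congr rfl
      intro h hh
      rw [Finset.sum_ite_eq, if_pos (hmem j h hh)]
    rw [Finset.sum_congr rfl this, Finset.sum_const, card_univ, Fintype.card_fin, smul_eq_mul]
  · intro j h hh
    have h1 : w h ≤ ∑ h' ∈ HH, (if (t j : ℤ) + h' = (t j : ℤ) + h then w h' else 0) := by
      have h2 := Finset.single_le_sum (s := HH)
        (f := fun h' => if (t j : ℤ) + h' = (t j : ℤ) + h then w h' else 0) (fun _ _ => Nat.zero_le _) hh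
      simpa using h2
    refine h1.trans ?_
    exact Finset.single_le_sum (s := (univ : Finset (Fin K)))
      (f := fun j' => ∑ h' ∈ HH, (if (t j' : ℤ) + h' = (t j : ℤ) + h then w h' else 0))
      (fun _ _ => Nat.zero_le _) (mem_univ j)

theorem ev_loglog : ∀ᶠ x : ℝ in atTop, Real.log x / Real.log (Real.log x) ≤
    2 * (Real.log (x / 5) / Real.log (Real.log (x / 5))) := by
  have hl := Real.tendsto_log_atTop
  have hll : Tendsto (fun X : ℝ => Real.log (Real.log X)) atTop atTop := hl.comp hl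
  filter_upwards [hl.eventually_ge_atTop (2 * Real.log 5 + 10), hll.eventually_ge_atTop 10, eventually_ge_atTop 10]
    with x h1 h2 h3
  have hlog5 : 0 ≤ Real.log 5 := Real.log_nonneg (by norm_num)
  have g1 : Real.log (x / 5) = Real.log x - Real.log 5 := Real.log_div (by linarith) (by norm_num)
  have g2 : Real.log x / 2 ≤ Real.log (x / 5) := by rw [g1]; linarith
  have g3 : Real.log (x / 5) ≤ Real.log x := by rw [g1]; linarith
  have g4 : Real.log (Real.log (x / 5)) ≤ Real.log (Real.log x) := Real.log_le_log (by linarith) g3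
  have g5 : 0 < Real.log (Real.log (x / 5)) := Real.log_pos (by linarith)
  rw [mul_div_assoc']
  apply div_le_div₀ (by linarith) (by linarith) g5 g4

open Classical in
/-- chains of gaps of every size between the logarithm and the record in a residue class, with prescribed numbers of
prime factors at the shifts -/
theorem chains_of (hm : MTD) : ∀ k : ℕ, ∃ c : ℝ, 0 < c ∧ ∀ q a : ℕ, Squarefree q → a.Coprime q →
    ∀ᶠ x : ℝ in atTop, ∀ G : ℝ, Real.log x ≤ G → G ≤ c * ff x →
    ∀ (HH : Finset ℤ) (w : ℤ → ℕ), (∀ h ∈ HH, h ≠ 0 ∧ |(h : ℝ)| ≤ c * G) →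
    ((∑ h ∈ HH, w h : ℕ) : ℝ) ≤ c * (Real.log x / Real.log (Real.log x)) →
    x ^ (7 / 8 : ℝ) ≤ (((Finset.range ⌊x⌋₊).filter (fun n : ℕ => (Nat.nth Nat.Prime (n + k) : ℝ) ≤ x ∧
      (∀ i < k, c * G ≤ (Nat.nth Nat.Prime (n + i + 1) : ℝ) - Nat.nth Nat.Prime (n + i) ∧
        (Nat.nth Nat.Prime (n + i + 1) : ℝ) - Nat.nth Nat.Prime (n + i) ≤ G) ∧
      ∀ i ≤ k, Nat.nth Nat.Prime (n + i) ≡ a [MOD q] ∧ ∀ h ∈ HH, w h ≤
        (((Nat.nth Nat.Prime (n + i) : ℤ) + h).natAbs.primeFactors.filter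
          (fun p : ℕ => (p : ℝ) ≤ Real.log x)).card)).card : ℝ) := by
  intro k
  obtain ⟨K, -, c0, hc0, hmz⟩ := hm (k + 1)
  set c : ℝ := min (min (c0 / 4) (1 / (8 * (K + 1)))) (c0 / (2 * (K + 1))) with hcdef
  have hcpos : 0 < c := lt_min (lt_min (by positivity) (by positivity)) (by positivity)
  have hcle0 : c ≤ c0 / 4 := (min_le_left _ _).trans (min_le_left _ _)
  have hcle1 : c ≤ 1 / (8 * (K + 1)) := (min_le_left _ _).trans (min_le_right _ _)
  have hcle2 : c ≤ c0 / (2 * (K + 1)) := min_le_right _ _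
  refine ⟨c, hcpos, fun q a hqs haq => ?_⟩
  obtain ⟨X0, hX0⟩ := hmz q
  have hq0 : 0 < q := Nat.pos_of_ne_zero hqs.ne_zero
  obtain ⟨H₀, hH₀⟩ := primes_mod K q a hq0 haq
  have tX : Tendsto (fun x : ℝ => x / 5) atTop atTop := tendsto_id.atTop_div_const (by norm_num)
  filter_upwards [tX.eventually_ge_atTop X0,
    tX.eventually (ev_ff (2 * c0) (by positivity)), Pool.Agent.H378R2.RGT.ff_half, c1_card,
    tX.eventually (Real.tendsto_log_atTop.eventually_ge_atTop (max 1 H₀)),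
    eventually_ge_atTop 10, ev_loglog]
    with x e1 e3 e4 e5 e6' e7 e8
  intro G hG1 hG2 HH w hHH hw
  set X : ℝ := x / 5 with hX
  have e6 : 1 ≤ Real.log X := (le_max_left _ _).trans e6'
  have e6H : H₀ ≤ Real.log X := (le_max_right _ _).trans e6'
  have hx5 : x = 5 * X := by rw [hX]; ring
  have hlogle : Real.log X ≤ Real.log x := Real.log_le_log (by linarith) (by linarith)
  obtain ⟨f1, f2, f3⟩ := e3
  set H : ℝ := c0 * ff X with hH
  have hH0 : 0 ≤ H := mul_nonneg hc0.le f2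
  have hyy : (yy X : ℝ) ≤ Real.log X / 1000 := by
    unfold yy
    exact Nat.floor_le (by positivity)
  have hG0 : 0 < G := by linarith
  have hGH : G ≤ H := by
    have h1 : ff x ≤ 2 * ff X := by linarith
    calc G ≤ c * ff x := hG2
      _ ≤ c * (2 * ff X) := mul_le_mul_of_nonneg_left h1 hcpos.le
      _ ≤ c0 / 4 * (2 * ff X) := mul_le_mul_of_nonneg_right hcle0 (by linarith)
      _ ≤ H := by rw [hH]; nlinarith
  have hyG : (yy X : ℝ) < G / 2 := by linarith
  obtain ⟨t, ht, hsep⟩ := hH₀ G (by linarith)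
  have htH : ∀ j, (t j).Prime ∧ yy X < t j ∧ (t j : ℝ) ≤ H := fun j =>
    ⟨(ht j).1, by exact_mod_cast hyG.trans (ht j).2.2.1, (ht j).2.2.2.trans hGH⟩
  have hK : (0 : ℝ) ≤ K := Nat.cast_nonneg K
  have hgap : 0 < G / (4 * (K + 1)) := by positivity
  have hinj : Function.Injective t := by
    intro i j hij
    rcases lt_trichotomy i j with hlt | heq | hlt
    · have := hsep i j hlt
      rw [hij] at this
      linarith
    · exact heq
    · have := hsep j i hlt
      rw [hij] at this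
      linarith
  -- the range of the shifts
  have hcG : c * G ≤ G / (8 * (K + 1)) := by
    calc c * G ≤ 1 / (8 * (K + 1)) * G := mul_le_mul_of_nonneg_right hcle1 hG0.le
      _ = _ := by ring
  have hshift : ∀ h ∈ HH, |(h : ℝ)| ≤ G / (8 * (K + 1)) := fun h hh => (hHH h hh).2.trans hcG
  have hhalf' : G / (8 * (K + 1)) = G / (4 * (K + 1)) / 2 := by rw [div_div]; ring
  have hhalf : G / (8 * (K + 1)) < G / (4 * (K + 1)) := by linarith
  have hGle : G / (8 * (K + 1)) ≤ G := by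
    apply div_le_self hG0.le
    linarith
  obtain ⟨D, w', hD1, hD2, hD3, hD4⟩ := demands t HH w
  have h2H : 2 * H ≤ (Real.log X) ^ 2 := by
    rw [hH]; linarith
  have hDok : ∀ s ∈ D, (∀ j, s ≠ (t j : ℤ)) ∧ |(s : ℝ)| ≤ (Real.log X) ^ 2 := by
    intro s hs
    obtain ⟨j, h, hh, rfl⟩ := hD1 s hs
    have hsh := hshift h hh
    refine ⟨?_, ?_⟩
    · intro i hi
      have hne : h ≠ 0 := (hHH h hh).1
      have hij : i ≠ j := by
        rintro rfl
        apply hne
        linarith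
      have hhr : (h : ℝ) = (t i : ℝ) - t j := by
        have h1 : h = (t i : ℤ) - t j := by linarith
        rw [h1]; push_cast; ring
      rw [hhr] at hsh
      rcases lt_or_gt_of_ne hij with hc | hc
      · have h2 := hsep i j hc
        have h3 := neg_abs_le ((t i : ℝ) - t j)
        linarith
      · have h2 := hsep j i hc
        have h3 := le_abs_self ((t i : ℝ) - t j)
        linarith
    · push_cast
      have h1 := (ht j).2.2.2
      have h2 : (0 : ℝ) ≤ t j := Nat.cast_nonneg _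
      rw [abs_le] at hsh ⊢
      constructor <;> linarith
  have hDsum : ((∑ s ∈ D, w' s : ℕ) : ℝ) ≤ c0 * (Real.log X / Real.log (Real.log X)) := by
    rw [hD3]
    push_cast at hw ⊢
    have hnn : (0 : ℝ) ≤ ∑ h ∈ HH, (w h : ℝ) := Finset.sum_nonneg fun _ _ => Nat.cast_nonneg _
    have hr0 : 0 ≤ Real.log x / Real.log (Real.log x) := by
      have h2 : 0 ≤ c * (Real.log x / Real.log (Real.log x)) := hnn.trans hw
      exact nonneg_of_mul_nonneg_right h2 hcpos
    calc (K : ℝ) * ∑ h ∈ HH, (w h : ℝ) ≤ K * (c * (Real.log x / Real.log (Real.log x))) :=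
          mul_le_mul_of_nonneg_left hw hK
      _ ≤ K * (c0 / (2 * (K + 1)) * (Real.log x / Real.log (Real.log x))) := by gcongr
      _ = (K / (K + 1)) * (c0 * (Real.log x / Real.log (Real.log x)) / 2) := by field_simp
      _ ≤ 1 * (c0 * (Real.log x / Real.log (Real.log x)) / 2) := by
          apply mul_le_mul_of_nonneg_right _ (by positivity)
          rw [div_le_one (by positivity)]
          linarith
      _ ≤ c0 * (Real.log X / Real.log (Real.log X)) := by
          have := mul_le_mul_of_nonneg_left e8 hc0.le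
          linarith
  by_contra hcon
  push Not at hcon
  set Ch : Finset ℕ := (Finset.range ⌊x⌋₊).filter (fun n : ℕ => (Nat.nth Nat.Prime (n + k) : ℝ) ≤ x ∧
      (∀ i < k, c * G ≤ (Nat.nth Nat.Prime (n + i + 1) : ℝ) - Nat.nth Nat.Prime (n + i) ∧
        (Nat.nth Nat.Prime (n + i + 1) : ℝ) - Nat.nth Nat.Prime (n + i) ≤ G) ∧
      ∀ i ≤ k, Nat.nth Nat.Prime (n + i) ≡ a [MOD q] ∧ ∀ h ∈ HH, w h ≤
        (((Nat.nth Nat.Prime (n + i) : ℤ) + h).natAbs.primeFactors.filter
          (fun p : ℕ => (p : ℝ) ≤ Real.log x)).card) with hCh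
  -- the bad set
  set B : ℕ := ⌊H⌋₊ with hB
  let bad : Finset ℕ := Ch.biUnion (fun n => Finset.Icc (Nat.nth Nat.Prime n - B) (Nat.nth Nat.Prime n))
  have hBle : (B : ℝ) ≤ H := Nat.floor_le hH0
  have hbad : (bad.card : ℝ) ≤ X ^ (9 / 10 : ℝ) := by
    have h1 : bad.card ≤ ∑ n ∈ Ch, (B + 1) := by
      refine Finset.card_biUnion_le.trans (Finset.sum_le_sum fun n _ => ?_)
      rw [Nat.card_Icc]
      omega
    rw [Finset.sum_const, smul_eq_mul] at h1
    have h2 : (bad.card : ℝ) ≤ (Ch.card : ℝ) * ((B : ℝ) + 1) := by exact_mod_cast h1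
    refine h2.trans (le_trans ?_ e5)
    apply mul_le_mul hcon.le _ (by positivity) (by positivity)
    linarith
  obtain ⟨N, hN1, hN2, hNbad, hNr, hNs, hNz, hND⟩ := hX0 X e1 t hinj htH D w' hDok hDsum bad hbad
  -- the index
  set n : ℕ := Nat.count Nat.Prime N with hn
  have hcount : n + (k + 1) ≤ Nat.count Nat.Prime (N + (B + 1)) := by
    rw [Nat.count_add, ← hn]
    apply Nat.add_le_add_left
    rw [Nat.count_eq_card_filter_range]
    refine hNr.trans ?_
    refine Finset.card_le_card_of_injOn t ?_ (fun i _ j _ hij => hinj hij)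
    intro j hj
    simp only [Finset.coe_filter, Finset.mem_univ, true_and, Set.mem_ofPred_eq] at hj
    simp only [Finset.coe_filter, Finset.mem_range, Set.mem_ofPred_eq]
    refine ⟨?_, hj⟩
    have : t j ≤ B := Nat.le_floor (htH j).2.2
    omega
  have hprime : ∀ i, (Nat.nth Nat.Prime i).Prime := fun i => Nat.prime_nth_prime i
  have hlo : ∀ i, N ≤ Nat.nth Nat.Prime (n + i) := by
    intro i
    have h1 : Nat.nth Nat.Prime n ≤ Nat.nth Nat.Prime (n + i) :=
      Nat.nth_monotone Nat.infinite_setOfPred_prime (Nat.le_add_right n i)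
    refine le_trans ?_ h1
    by_contra hc
    push Not at hc
    have h2 : Nat.count Nat.Prime (Nat.nth Nat.Prime n + 1) ≤ Nat.count Nat.Prime N :=
      Nat.count_monotone _ hc
    rw [Nat.count_succ, Nat.count_nth_of_infinite Nat.infinite_setOfPred_prime,
      if_pos (hprime n)] at h2
    omega
  have hhi : ∀ i, i ≤ k → Nat.nth Nat.Prime (n + i) ≤ N + B := by
    intro i hi
    have h1 : Nat.nth Nat.Prime (n + i) < N + (B + 1) := Nat.nth_lt_of_lt_count (by omega)
    omega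
  have hform : ∀ i, i ≤ k → ∃ j, Nat.nth Nat.Prime (n + i) = N + t j := by
    intro i hi
    obtain ⟨s, hs⟩ := Nat.exists_eq_add_of_le (hlo i)
    have hsB : s ≤ B := by
      have := hhi i hi
      omega
    have hsH : (s : ℝ) ≤ H := le_trans (by exact_mod_cast hsB) hBle
    have hp : (N + s).Prime := hs ▸ hprime (n + i)
    obtain ⟨j, hj⟩ := hNs s hsH hp
    exact ⟨j, by rw [hs, hj]⟩
  have hgaps : ∀ i < k, c * G ≤ (Nat.nth Nat.Prime (n + i + 1) : ℝ) - Nat.nth Nat.Prime (n + i) ∧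
      (Nat.nth Nat.Prime (n + i + 1) : ℝ) - Nat.nth Nat.Prime (n + i) ≤ G := by
    intro i hi
    obtain ⟨j, hj⟩ := hform i hi.le
    obtain ⟨j', hj'⟩ := hform (i + 1) hi
    have hlt : Nat.nth Nat.Prime (n + i) < Nat.nth Nat.Prime (n + (i + 1)) :=
      Nat.nth_strictMono Nat.infinite_setOfPred_prime (by omega)
    have hdiff : (Nat.nth Nat.Prime (n + i + 1) : ℝ) - Nat.nth Nat.Prime (n + i) =
        (t j' : ℝ) - t j := by
      rw [add_assoc n i 1, hj, hj']
      push_cast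
      ring
    rw [hdiff]
    have htt : t j < t j' := by
      rw [hj, hj'] at hlt
      omega
    have hne : j ≠ j' := fun he => by
      rw [he] at htt
      exact lt_irrefl _ htt
    have hlarge : G / (4 * (K + 1)) ≤ (t j' : ℝ) - t j := by
      rcases lt_or_gt_of_ne hne with hc | hc
      · exact hsep j j' hc
      · have h1 := hsep j' j hc
        have h2 : (t j : ℝ) < t j' := by exact_mod_cast htt
        linarith
    refine ⟨by linarith, ?_⟩
    have h1 := (ht j').2.2.2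
    have h2 : (0 : ℝ) ≤ t j := Nat.cast_nonneg _
    linarith
  have hqN : q ∣ N := by
    rw [← Nat.prod_primeFactors_of_squarefree hqs]
    apply Finset.prod_primes_dvd
    · intro p hp
      exact (Nat.prime_of_mem_primeFactors hp).prime
    · intro p hp
      exact hNz p (Nat.prime_of_mem_primeFactors hp) (Nat.le_of_mem_primeFactors hp)
  have hn_mem : n ∈ Ch := by
    rw [hCh, Finset.mem_filter, Finset.mem_range]
    refine ⟨?_, ?_, hgaps, ?_⟩
    · have h1 : n ≤ N := Nat.count_le _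
      have h2 : ((n + 1 : ℕ) : ℝ) ≤ x := by
        push_cast
        have : (n : ℝ) ≤ N := by exact_mod_cast h1
        linarith
      exact Nat.le_floor h2
    · have h1 := hhi k le_rfl
      have h2 : (Nat.nth Nat.Prime (n + k) : ℝ) ≤ N + B := by exact_mod_cast h1
      have h3 : 2 * H ≤ X := by
        rw [hH]
        linarith
      linarith
    · intro i hi
      obtain ⟨j, hj⟩ := hform i hi
      refine ⟨?_, ?_⟩
      · rw [hj]
        have h1 : N + t j ≡ 0 + a [MOD q] := Nat.ModEq.add ((Nat.modEq_zero_iff_dvd).2 hqN) (ht j).2.1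
        rwa [zero_add] at h1
      · intro h hh
        refine (hD4 j h hh).trans ((hND _ (hD2 j h hh)).trans ?_)
        rw [hj]
        have h1 : (N : ℤ) + ((t j : ℤ) + h) = ((N + t j : ℕ) : ℤ) + h := by push_cast; ring
        rw [h1]
        apply Finset.card_le_card
        intro p hp
        rw [Finset.mem_filter] at hp ⊢
        exact ⟨hp.1, hp.2.trans hlogle⟩
  apply hNbad
  simp only [bad, Finset.mem_biUnion]
  refine ⟨n, hn_mem, ?_⟩
  rw [Finset.mem_Icc]
  have h1 := hlo 0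
  have h2 := hhi 0 (Nat.zero_le _)
  rw [add_zero] at h1 h2
  omega

end Pool.Agent.K6.H27.RC
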